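import Mathlib
import Pool.Agent.Lib_helper9.LG.Stmts

set_option autoImplicit false

/-!
Local second moments for a fixed residue `c` and a varying modulus `y`.
-/

namespace Pool.Agent.LPc5

open Finset Pool.Agent.Lib_helper9.LG

noncomputable section

/-- The local function of the prime `l` at the site `k`: residue `c`, modulus `y`. -/
def xc (c : ℤ) (l k y : ℕ) : ℝ := if (l : ℤ) ∣ c + k * y then -1 else 1 / ((l : ℝ) - 1)

lemma dvd_add_iff {c : ℤ} {l k y : ℕ} (hl : l.Prime) (hk : 0 < k ∧ k < l) :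
    (l : ℤ) ∣ c + k * y ↔ (y : ZMod l) = -(c : ZMod l) * ((k : ZMod l))⁻¹ := by
  haveI : Fact l.Prime := ⟨hl⟩
  have hk0 : (k : ZMod l) ≠ 0 := by
    rw [Ne, ZMod.natCast_eq_zero_iff]
    intro h
    exact absurd (Nat.le_of_dvd hk.1 h) (not_le.2 hk.2)
  rw [← ZMod.intCast_zmod_eq_zero_iff_dvd]
  push_cast
  constructor
  · intro h
    have h1 : (k : ZMod l) * y = -(c : ZMod l) := by
      linear_combination h
    rw [← h1, mul_comm (k : ZMod l), mul_assoc, mul_inv_cancel₀ hk0, mul_one]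
  · intro h
    rw [h]
    have h2 : (k : ZMod l) * (-(c : ZMod l) * (k : ZMod l)⁻¹) =
        -(c : ZMod l) * ((k : ZMod l) * (k : ZMod l)⁻¹) := by ring
    rw [h2, mul_inv_cancel₀ hk0]
    ring

lemma loc_unique {c : ℤ} {l k : ℕ} (hl : l.Prime) (hk : 0 < k ∧ k < l) :
    ∃ y₀ < l, ∀ y < l, ((l : ℤ) ∣ c + k * y ↔ y = y₀) := by
  haveI : Fact l.Prime := ⟨hl⟩
  haveI : NeZero l := ⟨hl.ne_zero⟩
  refine ⟨(-(c : ZMod l) * ((k : ZMod l))⁻¹).val, ZMod.val_lt _, fun y hy => ?_⟩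
  rw [dvd_add_iff hl hk]
  constructor
  · intro h
    rw [← h, ZMod.val_natCast, Nat.mod_eq_of_lt hy]
  · intro h
    rw [h, ZMod.natCast_zmod_val]

lemma loc_sum {c : ℤ} {l k : ℕ} (hl : l.Prime) (hk : 0 < k ∧ k < l) :
    ∑ y ∈ range l, (if (l : ℤ) ∣ c + k * y then (1 : ℝ) else 0) = 1 := by
  obtain ⟨y₀, h0, h1⟩ := loc_unique (c := c) hl hk
  rw [Finset.sum_eq_single y₀]
  · rw [if_pos ((h1 y₀ h0).2 rfl)]
  · intro y hy hne
    rw [if_neg]
    rw [h1 y (Finset.mem_range.1 hy)]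
    exact hne
  · intro h
    exact absurd (Finset.mem_range.2 h0) h

lemma loc_sum_ne {c : ℤ} {l k j : ℕ} (hl : l.Prime) (hc : ¬ l ∣ c.natAbs) (hk : 0 < k ∧ k < l)
    (hj : 0 < j ∧ j < l) (hkj : k ≠ j) :
    ∑ y ∈ range l, (if (l : ℤ) ∣ c + k * y then (1 : ℝ) else 0) *
      (if (l : ℤ) ∣ c + j * y then (1 : ℝ) else 0) = 0 := by
  apply Finset.sum_eq_zero
  intro y _
  by_cases h1 : (l : ℤ) ∣ c + k * y
  · by_cases h2 : (l : ℤ) ∣ c + j * y
    · exfalso
      have h3 : (l : ℤ) ∣ ((k : ℤ) - j) * y := by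
        have := dvd_sub h1 h2
        have e : c + (k : ℤ) * y - (c + j * y) = ((k : ℤ) - j) * y := by ring
        rwa [e] at this
      have hlp : Prime (l : ℤ) := Nat.prime_iff_prime_int.1 hl
      rcases hlp.dvd_or_dvd h3 with h4 | h4
      · have h5 : |(k : ℤ) - j| < l := by
          rw [abs_lt]
          constructor <;> omega
        have h6 := Int.eq_zero_of_abs_lt_dvd h4 h5
        omega
      · apply hc
        have h5 : (l : ℤ) ∣ c := (dvd_add_left (Dvd.dvd.mul_left h4 (k : ℤ))).1 h1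
        exact Int.natCast_dvd.1 h5
    · rw [if_neg h2, mul_zero]
  · rw [if_neg h1, zero_mul]

lemma xc_eq {c : ℤ} {l k y : ℕ} (hl : (1 : ℝ) < l) :
    xc c l k y = 1 / ((l : ℝ) - 1) -
      (l : ℝ) / ((l : ℝ) - 1) * (if (l : ℤ) ∣ c + k * y then (1 : ℝ) else 0) := by
  have h : (l : ℝ) - 1 ≠ 0 := by linarith
  unfold xc
  split_ifs
  · field_simp
    ring
  · ring

lemma loc_mean {c : ℤ} {l k : ℕ} (hl : l.Prime) (hk : 0 < k ∧ k < l) :
    ∑ y ∈ range l, xc c l k y = 0 := by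
  have hl1 : (1 : ℝ) < l := by exact_mod_cast hl.one_lt
  have h : (l : ℝ) - 1 ≠ 0 := by linarith
  rw [Finset.sum_congr rfl fun y _ => xc_eq (c := c) (k := k) (y := y) hl1,
    Finset.sum_sub_distrib, ← Finset.mul_sum, loc_sum hl hk, Finset.sum_const, Finset.card_range,
    nsmul_eq_mul]
  field_simp
  ring

lemma loc_cov {c : ℤ} {l k j : ℕ} (hl : l.Prime) (hk : 0 < k ∧ k < l) (hj : 0 < j ∧ j < l)
    {δ : ℝ} (hδ : ∑ y ∈ range l, (if (l : ℤ) ∣ c + k * y then (1 : ℝ) else 0) *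
      (if (l : ℤ) ∣ c + j * y then (1 : ℝ) else 0) = δ) :
    ∑ y ∈ range l, xc c l k y * xc c l j y =
      (l : ℝ) / ((l : ℝ) - 1) ^ 2 * (l * δ - 1) := by
  have hl1 : (1 : ℝ) < l := by exact_mod_cast hl.one_lt
  have h : (l : ℝ) - 1 ≠ 0 := by linarith
  have h1 : ∀ y ∈ range l, xc c l k y * xc c l j y =
      1 / ((l : ℝ) - 1) ^ 2 -
      (l : ℝ) / ((l : ℝ) - 1) ^ 2 * (if (l : ℤ) ∣ c + k * y then (1 : ℝ) else 0) -
      (l : ℝ) / ((l : ℝ) - 1) ^ 2 * (if (l : ℤ) ∣ c + j * y then (1 : ℝ) else 0) +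
      (l : ℝ) ^ 2 / ((l : ℝ) - 1) ^ 2 * ((if (l : ℤ) ∣ c + k * y then (1 : ℝ) else 0) *
        (if (l : ℤ) ∣ c + j * y then (1 : ℝ) else 0)) := by
    intro y _
    rw [xc_eq hl1, xc_eq hl1]
    field_simp
    ring
  rw [Finset.sum_congr rfl h1, Finset.sum_add_distrib, Finset.sum_sub_distrib,
    Finset.sum_sub_distrib, ← Finset.mul_sum, ← Finset.mul_sum, ← Finset.mul_sum,
    loc_sum hl hk, loc_sum hl hj, hδ, Finset.sum_const, Finset.card_range, nsmul_eq_mul]
  field_simp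
  ring

/-- Local second moments. -/
theorem locc (c : ℤ) (l : ℕ) (S : Finset ℕ) (β β' : Option {k // k ∈ S}) (hl : l.Prime)
    (hc : ¬ l ∣ c.natAbs) (hS : ∀ k ∈ S, 0 < k ∧ k < l) :
    (∑ y ∈ range l, (β.elim 1 (fun k => xc c l k y)) * (β'.elim 1 (fun k => xc c l k y))) / l =
      gl ((l : ℝ) - 1) β β' := by
  have hl1 : (1 : ℝ) < l := by exact_mod_cast hl.one_lt
  have hl2 : (l : ℝ) ≠ 0 := by linarith
  have h : (l : ℝ) - 1 ≠ 0 := by linarith
  cases β with
  | none =>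
    cases β' with
    | none =>
      simp only [Option.elim, gl, mul_one, Finset.sum_const, Finset.card_range, nsmul_eq_mul]
      exact div_self hl2
    | some k =>
      simp only [Option.elim, gl, one_mul]
      rw [loc_mean hl (hS k k.2), zero_div]
  | some k =>
    cases β' with
    | none =>
      simp only [Option.elim, gl, mul_one]
      rw [loc_mean hl (hS k k.2), zero_div]
    | some j =>
      simp only [Option.elim, gl]
      by_cases hkj : k = j
      · subst hkj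
        rw [if_pos rfl]
        have h1 : ∑ y ∈ range l, (if (l : ℤ) ∣ c + (k : ℕ) * y then (1 : ℝ) else 0) *
            (if (l : ℤ) ∣ c + (k : ℕ) * y then (1 : ℝ) else 0) = 1 := by
          refine Eq.trans ?_ (loc_sum (c := c) hl (hS k k.2))
          apply Finset.sum_congr rfl
          intro y _
          split_ifs <;> simp
        rw [loc_cov hl (hS k k.2) (hS k k.2) h1]
        field_simp
      · rw [if_neg hkj]
        have hne : (k : ℕ) ≠ (j : ℕ) := fun he => hkj (Subtype.ext he)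
        rw [loc_cov hl (hS k k.2) (hS j j.2) (loc_sum_ne hl hc (hS k k.2) (hS j j.2) hne)]
        field_simp
        ring

end

end Pool.Agent.LPc5
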