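import Mathlib
import Pool.Agent.Lib_helper9.LG.Stmts
import Pool.Agent.LPc5.Loc

set_option autoImplicit false

/-!
Correlations of configurations over a progression of moduli, for a fixed residue `c`.
-/

namespace Pool.Agent.LPc5

open Finset Pool.Agent.Lib_helper9.LG

noncomputable section

/-- The correlations of configurations over a progression. -/
def StmtHERRc : Prop := ∀ (c : ℤ) (W b N : ℕ) (X : ℝ) (S : Finset ℕ)
  (α β : {l // l ∈ PL c.natAbs X} → Option {k // k ∈ S}), c ≠ 0 → 1 ≤ W → 1 ≤ N →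
  W.Coprime c.natAbs →
  (∀ p : ℕ, p.Prime → p ∣ W → (p : ℝ) ≤ (Real.log X) ^ 4) →
  (∀ k ∈ S, 0 < k ∧ (k : ℝ) ≤ (Real.log X) ^ 4) →
  |(∑ ω ∈ (range N).filter (fun x => (b + W * x).Coprime c.natAbs),
      vl (fun (i : {l // l ∈ PL c.natAbs X}) (k : {k // k ∈ S}) (x : ℕ) =>
        xc c i k (b + W * x)) α ω *
      vl (fun (i : {l // l ∈ PL c.natAbs X}) (k : {k // k ∈ S}) (x : ℕ) =>
        xc c i k (b + W * x)) β ω) /
      ((N : ℝ) * ((c.natAbs.totient : ℝ) / c.natAbs)) -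
    gram (fun i : {l // l ∈ PL c.natAbs X} => ((i : ℕ) : ℝ) - 1) α β| ≤
    (2 ^ c.natAbs.primeFactors.card / ((N : ℝ) * ((c.natAbs.totient : ℝ) / c.natAbs))) *
      (Real.exp (sz (fun i : {l // l ∈ PL c.natAbs X} => Real.log ((i : ℕ) : ℝ)) (spp α)) *
       Real.exp (sz (fun i : {l // l ∈ PL c.natAbs X} => Real.log ((i : ℕ) : ℝ)) (spp β)))

lemma mem_PLc {m : ℕ} {X : ℝ} {l : ℕ} (h : l ∈ PL m X) :
    l.Prime ∧ (Real.log X) ^ 4 < (l : ℝ) ∧ ¬ l ∣ m := by
  unfold PL at h
  rw [mem_filter] at h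
  exact h.2

lemma xc_periodic (c : ℤ) (l k y : ℕ) : xc c l k (y + l) = xc c l k y := by
  unfold xc
  have h : (l : ℤ) ∣ c + k * ((y + l : ℕ) : ℤ) ↔ (l : ℤ) ∣ c + k * y := by
    rw [show c + (k : ℤ) * ((y + l : ℕ) : ℤ) = (c + k * y) + l * k by push_cast; ring]
    exact dvd_add_left (Dvd.intro _ rfl)
  simp only [h]

lemma abs_xc_le (c : ℤ) (l k y : ℕ) (hl : l.Prime) : |xc c l k y| ≤ 1 := by
  unfold xc
  have h2 : (2 : ℝ) ≤ l := by exact_mod_cast hl.two_le
  split_ifs
  · simp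
  · rw [abs_of_nonneg (by apply div_nonneg <;> linarith)]
    rw [div_le_one (by linarith)]
    linarith

/-- Both factors of a configuration pair at one prime. -/
def pairFc (c : ℤ) (X : ℝ) (S : Finset ℕ)
    (α β : {l // l ∈ PL c.natAbs X} → Option {k // k ∈ S}) (l y : ℕ) : ℝ :=
  if h : l ∈ PL c.natAbs X then
    ((α ⟨l, h⟩).elim 1 (fun k => xc c l k y)) * ((β ⟨l, h⟩).elim 1 (fun k => xc c l k y))
  else 1

lemma pairFc_coe (c : ℤ) (X : ℝ) (S : Finset ℕ)
    (α β : {l // l ∈ PL c.natAbs X} → Option {k // k ∈ S})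
    (i : {l // l ∈ PL c.natAbs X}) (y : ℕ) : pairFc c X S α β i y =
      ((α i).elim 1 (fun k => xc c i k y)) * ((β i).elim 1 (fun k => xc c i k y)) := by
  unfold pairFc
  rw [dif_pos i.2]

theorem herrc (h1 : StmtAVG) : StmtHERRc := by
  intro c W b N X S α β hc0 hW hN hWm hWp hS
  have hm : 1 ≤ c.natAbs := Int.natAbs_pos.2 hc0
  classical
  set D : Finset {l // l ∈ PL c.natAbs X} := spp α ∪ spp β with hD
  set P : Finset ℕ := D.map (Function.Embedding.subtype _) with hP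
  have hPmem : ∀ l ∈ P, l ∈ PL c.natAbs X := by
    intro l hl
    rw [hP, mem_map] at hl
    obtain ⟨i, _, rfl⟩ := hl
    exact i.2
  have hM : (0 : ℝ) < (N : ℝ) * ((c.natAbs.totient : ℝ) / c.natAbs) := by
    have h3 : 0 < c.natAbs.totient := Nat.totient_pos.2 (by omega)
    have h4 : (0 : ℝ) < c.natAbs.totient := by exact_mod_cast h3
    have h5 : (0 : ℝ) < c.natAbs := by exact_mod_cast (by omega : 0 < c.natAbs)
    have h6 : (0 : ℝ) < N := by exact_mod_cast (by omega : 0 < N)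
    positivity
  have hprodP : ∀ f : ℕ → ℝ, ∏ l ∈ P, f l = ∏ i ∈ D, f i := by
    intro f
    rw [hP, Finset.prod_map]
    rfl
  have hnone : ∀ i : {l // l ∈ PL c.natAbs X}, i ∉ D → α i = none ∧ β i = none := by
    intro i hi
    rw [hD, mem_union, not_or, mem_spp, mem_spp, not_not, not_not] at hi
    exact hi
  have key := h1 c.natAbs W b N P (pairFc c X S α β) hm hW hWm
    (by
      intro l hl
      obtain ⟨h3, h4, h5⟩ := mem_PLc (hPmem l hl)
      refine ⟨h3, h5, fun h6 => ?_⟩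
      exact absurd (hWp l h3 h6) (not_le.2 h4))
    (by
      intro l hl y
      unfold pairFc
      rw [dif_pos (hPmem l hl), dif_pos (hPmem l hl)]
      simp only [xc_periodic])
    (by
      intro l hl y
      unfold pairFc
      rw [dif_pos (hPmem l hl), abs_mul]
      have hlp := (mem_PLc (hPmem l hl)).1
      have h3 : ∀ γ : Option {k // k ∈ S}, |γ.elim 1 (fun k => xc c l k y)| ≤ 1 := by
        intro γ
        cases γ with
        | none => simp
        | some k => exact abs_xc_le c l k y hlp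
      exact mul_le_one₀ (h3 _) (abs_nonneg _) (h3 _))
  -- the product over the primes of `P`
  have hval : ∀ x : ℕ, ∏ l ∈ P, pairFc c X S α β l (b + W * x) =
      vl (fun (i : {l // l ∈ PL c.natAbs X}) (k : {k // k ∈ S}) (x : ℕ) => xc c i k (b + W * x)) α x *
      vl (fun (i : {l // l ∈ PL c.natAbs X}) (k : {k // k ∈ S}) (x : ℕ) => xc c i k (b + W * x)) β x := by
    intro x
    rw [hprodP, vl, vl, ← Finset.prod_mul_distrib]
    rw [← Finset.prod_subset (subset_univ D)]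
    · apply Finset.prod_congr rfl
      intro i _
      rw [pairFc_coe]
    · intro i _ hi
      obtain ⟨h3, h4⟩ := hnone i hi
      rw [h3, h4]
      simp
  have hmean : ∏ l ∈ P, ((∑ y ∈ range l, pairFc c X S α β l y) / l) =
      gram (fun i : {l // l ∈ PL c.natAbs X} => ((i : ℕ) : ℝ) - 1) α β := by
    rw [hprodP, gram]
    rw [← Finset.prod_subset (subset_univ D)]
    · apply Finset.prod_congr rfl
      intro i _
      obtain ⟨h3, h4, h5⟩ := mem_PLc i.2
      rw [← locc c i S (α i) (β i) h3 h5 (by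
        intro k hk
        have h10 := (hS k hk).2.trans_lt h4
        exact ⟨(hS k hk).1, by exact_mod_cast h10⟩)]
      congr 1
      apply Finset.sum_congr rfl
      intro y _
      rw [pairFc_coe]
    · intro i _ hi
      obtain ⟨h3, h4⟩ := hnone i hi
      rw [h3, h4]
      rfl
  have hexp : ∀ T : Finset {l // l ∈ PL c.natAbs X},
      Real.exp (sz (fun i : {l // l ∈ PL c.natAbs X} => Real.log ((i : ℕ) : ℝ)) T) =
        ∏ i ∈ T, ((i : ℕ) : ℝ) := by
    intro T
    rw [sz, Real.exp_sum]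
    apply Finset.prod_congr rfl
    intro i _
    have := (mem_PLc i.2).1.pos
    rw [Real.exp_log (by exact_mod_cast this)]
  have hone : ∀ i : {l // l ∈ PL c.natAbs X}, (1 : ℝ) ≤ ((i : ℕ) : ℝ) := by
    intro i
    exact_mod_cast (mem_PLc i.2).1.one_le
  have hDle : ∏ l ∈ P, (l : ℝ) ≤ (∏ i ∈ spp α, ((i : ℕ) : ℝ)) * ∏ i ∈ spp β, ((i : ℕ) : ℝ) := by
    rw [hprodP (fun l => (l : ℝ)), hD,
      ← Finset.prod_union_inter (s₁ := spp α) (s₂ := spp β) (f := fun i => ((i : ℕ) : ℝ))]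
    have h3 : (1 : ℝ) ≤ ∏ i ∈ spp α ∩ spp β, ((i : ℕ) : ℝ) :=
      Finset.one_le_prod fun i _ => hone i
    have h4 : (0 : ℝ) ≤ ∏ i ∈ spp α ∪ spp β, ((i : ℕ) : ℝ) :=
      Finset.prod_nonneg fun i _ => (zero_le_one.trans (hone i))
    nlinarith
  rw [hmean, Finset.sum_congr rfl fun x _ => hval x] at key
  rw [hexp, hexp]
  set Sg := ∑ ω ∈ (range N).filter (fun x => (b + W * x).Coprime c.natAbs),
      vl (fun (i : {l // l ∈ PL c.natAbs X}) (k : {k // k ∈ S}) (x : ℕ) => xc c i k (b + W * x)) α ω *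
      vl (fun (i : {l // l ∈ PL c.natAbs X}) (k : {k // k ∈ S}) (x : ℕ) => xc c i k (b + W * x)) β ω
    with hSg
  set M := (N : ℝ) * ((c.natAbs.totient : ℝ) / c.natAbs) with hMdef
  set G := gram (fun i : {l // l ∈ PL c.natAbs X} => ((i : ℕ) : ℝ) - 1) α β with hG
  have h7 : Sg / M - G = (Sg - M * G) / M := by
    field_simp
  rw [h7, abs_div, abs_of_pos hM, div_mul_eq_mul_div]
  apply div_le_div_of_nonneg_right _ hM.le
  refine key.trans ?_
  exact mul_le_mul_of_nonneg_left hDle (by positivity)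

end

end Pool.Agent.LPc5
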