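import Mathlib
import Pool.Agent.Lib_helper72.LP.RankinB

set_option autoImplicit false

/-!
Monotonicity of the sizes, and a number with the prime factors of `c` (and 2) near `M`.
-/

namespace Pool.Agent.LPc5

open Finset Filter Pool.Agent.Lib_helper72.LP

noncomputable section

lemma div_log_mono {w w' : ℝ} (h : Real.exp 1 ≤ w) (h' : w ≤ w') :
    w / Real.log w ≤ w' / Real.log w' := by
  have h0 : 0 < w := (Real.exp_pos 1).trans_le h
  have h0' : 0 < w' := h0.trans_le h'
  have h1 : 1 ≤ Real.log w := by
    rw [← Real.log_exp 1]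
    exact Real.log_le_log (Real.exp_pos 1) h
  have h1' : 1 ≤ Real.log w' := h1.trans (Real.log_le_log h0 h')
  have h2 := Real.log_div_self_antitoneOn (show w ∈ {x : ℝ | Real.exp 1 ≤ x} from h)
    (show w' ∈ {x : ℝ | Real.exp 1 ≤ x} from h.trans h') h'
  rw [div_le_div_iff₀ h0' h0] at h2
  rw [div_le_div_iff₀ (by linarith) (by linarith)]
  linarith

/-- The exponent of the bound for the number of prime factors. -/
def XB (M : ℕ) : ℝ :=
  Real.log (Real.log M) * Real.log (Real.log (Real.log (Real.log M))) /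
    Real.log (Real.log (Real.log M))

/-- The sizes are monotone. -/
lemma sizes_mono {M M' : ℕ} (hMM : M ≤ M') (hM : 0 < M)
    (h : Real.exp 1 ≤ Real.log (Real.log (Real.log M))) :
    WB M ≤ WB M' ∧ XB M ≤ XB M' ∧ 0 ≤ WB M := by
  have he : (1 : ℝ) ≤ Real.exp 1 := by
    have := Real.add_one_le_exp (1 : ℝ)
    linarith
  have he2 : Real.exp 1 ≤ 3 := by
    have := Real.exp_one_lt_d9
    linarith
  have he0 : (2 : ℝ) ≤ Real.exp 1 := by
    have := Real.add_one_le_exp (1 : ℝ)
    linarith
  set L := Real.log (M : ℝ) with hL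
  set L' := Real.log (M' : ℝ) with hL'
  set w := Real.log L with hw
  set w' := Real.log L' with hw'
  set v := Real.log w with hv
  set v' := Real.log w' with hv'
  have hLL : L ≤ L' := Real.log_le_log (by exact_mod_cast hM) (by exact_mod_cast hMM)
  have hL0' : 0 ≤ L := Real.log_natCast_nonneg M
  have hL0 : 0 < L := by
    rcases hL0'.lt_or_eq with h1 | h1
    · exact h1
    · exfalso
      have : w = 0 := by rw [hw, ← h1, Real.log_zero]
      rw [hv, this, Real.log_zero] at h
      linarith
  have hww : w ≤ w' := Real.log_le_log hL0 hLL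
  have hwpos : 0 < w := by
    by_contra hneg
    rw [not_lt] at hneg
    -- `log` of a nonpositive number can be large only if it is large in absolute value
    have h3 : Real.log (-w) = v := by rw [Real.log_neg_eq_log]
    have h4 : L < 1 := by
      by_contra h5
      rw [not_lt] at h5
      have h6 : 0 ≤ w := Real.log_nonneg h5
      have h7 : w = 0 := le_antisymm hneg h6
      rw [h7, neg_zero, Real.log_zero] at h3
      linarith
    -- `M ≥ 1` integer: `L < 1` means `M ≤ 2`
    have hM2 : M ≤ 2 := by
      by_contra h5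
      rw [not_le] at h5
      have h6 : (3 : ℝ) ≤ M := by exact_mod_cast h5
      have h7 : Real.exp 1 ≤ (M : ℝ) := by linarith
      have h8 := Real.log_le_log (Real.exp_pos 1) h7
      rw [Real.log_exp] at h8
      linarith
    have hM2' : M = 2 := by
      have h5 : M ≠ 1 := by
        intro h6
        have : L = 0 := by rw [hL, h6, Nat.cast_one, Real.log_one]
        linarith
      omega
    have hlog2 : L = Real.log 2 := by rw [hL, hM2', Nat.cast_two]
    have h9 : (1 : ℝ) / 2 < L := by
      rw [hlog2]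
      have := Real.log_two_gt_d9
      linarith
    have h10 : -w ≤ 1 := by
      have h11 := Real.one_sub_inv_le_log_of_pos hL0
      have h12 : L⁻¹ ≤ 2 := by
        rw [inv_le_comm₀ hL0 (by norm_num)]
        linarith
      linarith
    have h13 : Real.log (-w) ≤ 0 := Real.log_nonpos (by linarith) h10
    linarith
  have hw1 : Real.exp 1 ≤ w := by
    have h1 := Real.log_le_sub_one_of_pos hwpos
    linarith
  have hvv : v ≤ v' := Real.log_le_log hwpos hww
  have hv1 : 1 ≤ v := by linarith
  have hq1 : 1 ≤ Real.log v := by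
    rw [← Real.log_exp 1]
    exact Real.log_le_log (Real.exp_pos 1) h
  have hqq : Real.log v ≤ Real.log v' := Real.log_le_log (by linarith) hvv
  have hmono := div_log_mono hw1 hww
  rw [← hv, ← hv'] at hmono
  have hwv0 : 0 ≤ w / v := by positivity
  have hwv0' : 0 ≤ w' / v' := hwv0.trans hmono
  have e1 : WB M = L * (w / v) ^ 2 * Real.log v := by
    rw [WB, ← hL, ← hw, ← hv]
    field_simp
  have e2 : WB M' = L' * (w' / v') ^ 2 * Real.log v' := by
    have hv0' : v' ≠ 0 := by linarith
    rw [WB, ← hL', ← hw', ← hv']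
    field_simp
  refine ⟨?_, ?_, ?_⟩
  · rw [e1, e2]
    gcongr
  · rw [XB, XB, ← hL, ← hw, ← hv, ← hL', ← hw', ← hv']
    have e3 : w * Real.log v / v = (w / v) * Real.log v := by ring
    have e4 : w' * Real.log v' / v' = (w' / v') * Real.log v' := by ring
    rw [e3, e4]
    gcongr
  · rw [e1]
    positivity

/-- A number with the prime factors of `c` and possibly `2`, between `M` and `2 M`. -/
lemma exists_near {c M : ℕ} (hc : 0 < c) (hcM : c ≤ M) : ∃ M' : ℕ, M ≤ M' ∧ M' < 2 * M ∧
    c ∣ M' ∧ M'.primeFactors.card ≤ c.primeFactors.card + 1 ∧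
    (c.totient : ℝ) / c ≤ 2 * ((M'.totient : ℝ) / M') := by
  have hM : 0 < M := by omega
  have hex : ∃ j : ℕ, M ≤ c * 2 ^ j := ⟨M, by
    have h1 : M < 2 ^ M := Nat.lt_two_pow_self
    nlinarith⟩
  set j := Nat.find hex with hj
  have hj1 : M ≤ c * 2 ^ j := Nat.find_spec hex
  have hj2 : c * 2 ^ j < 2 * M := by
    rcases Nat.eq_zero_or_pos j with h0 | h0
    · rw [h0]
      omega
    · have h1 := Nat.find_min hex (m := j - 1) (by omega)
      rw [not_le] at h1
      have h2 : 2 ^ j = 2 * 2 ^ (j - 1) := by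
        rw [← pow_succ']
        congr 1
        omega
      rw [h2]
      have h3 : c * (2 * 2 ^ (j - 1)) = 2 * (c * 2 ^ (j - 1)) := by ring
      rw [h3]
      exact Nat.mul_lt_mul_of_pos_left h1 (by norm_num)
  have hpf : (c * 2 ^ j).primeFactors ⊆ insert 2 c.primeFactors := by
    intro p hp
    rw [Nat.mem_primeFactors] at hp
    obtain ⟨h1, h2, h3⟩ := hp
    rw [mem_insert, Nat.mem_primeFactors]
    rcases (Nat.Prime.dvd_mul h1).1 h2 with h4 | h4
    · right
      exact ⟨h1, h4, hc.ne'⟩
    · left
      exact (Nat.prime_dvd_prime_iff_eq h1 Nat.prime_two).1 (h1.dvd_of_dvd_pow h4)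
  have hpos : 0 < c * 2 ^ j := by positivity
  refine ⟨c * 2 ^ j, hj1, hj2, Dvd.intro _ rfl, ?_, ?_⟩
  · exact (card_le_card hpf).trans (card_insert_le _ _)
  · rw [totient_div_prod hc, totient_div_prod hpos]
    have h01 : ∀ p : ℕ, p.Prime → 0 ≤ 1 - (1 : ℝ) / p ∧ 1 - (1 : ℝ) / p ≤ 1 := by
      intro p hp
      have h1 : (1 : ℝ) < p := by exact_mod_cast hp.one_lt
      refine ⟨?_, ?_⟩
      · rw [sub_nonneg, div_le_one (by linarith)]
        exact h1.le
      · have : 0 ≤ (1 : ℝ) / p := by positivity
        linarith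
    have h1 : ∏ p ∈ insert 2 c.primeFactors, (1 - (1 : ℝ) / p) ≤
        ∏ p ∈ (c * 2 ^ j).primeFactors, (1 - (1 : ℝ) / p) := by
      rw [← Finset.prod_sdiff hpf]
      have h2 : ∏ p ∈ insert 2 c.primeFactors \ (c * 2 ^ j).primeFactors,
          (1 - (1 : ℝ) / p) ≤ 1 := by
        apply Finset.prod_le_one
        · intro p hp
          rw [Finset.mem_sdiff, mem_insert] at hp
          rcases hp.1 with h3 | h3
          · subst h3
            norm_num
          · exact (h01 p (Nat.prime_of_mem_primeFactors h3)).1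
        · intro p hp
          rw [Finset.mem_sdiff, mem_insert] at hp
          rcases hp.1 with h3 | h3
          · subst h3
            norm_num
          · exact (h01 p (Nat.prime_of_mem_primeFactors h3)).2
      have h3 : 0 ≤ ∏ p ∈ (c * 2 ^ j).primeFactors, (1 - (1 : ℝ) / p) :=
        Finset.prod_nonneg fun p hp => (h01 p (Nat.prime_of_mem_primeFactors hp)).1
      nlinarith
    have h2 : ∏ p ∈ c.primeFactors, (1 - (1 : ℝ) / p) ≤
        2 * ∏ p ∈ insert 2 c.primeFactors, (1 - (1 : ℝ) / p) := by
      have h4 : 0 ≤ ∏ p ∈ c.primeFactors, (1 - (1 : ℝ) / p) :=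
        Finset.prod_nonneg fun p hp => (h01 p (Nat.prime_of_mem_primeFactors hp)).1
      by_cases h3 : 2 ∈ c.primeFactors
      · rw [Finset.insert_eq_self.2 h3]
        linarith
      · rw [Finset.prod_insert h3]
        push_cast
        linarith
    linarith

end

end Pool.Agent.LPc5
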