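import Mathlib

set_option autoImplicit false

/-!
Shift of a covering such that its classes become nonzero, and the class of the modulus.
-/

namespace Pool.Agent.LPc5

open Finset

/-- There is an integer which is not covered, below any bound. -/
lemma exists_uncovered (Q : Finset ℕ) (hQ : ∀ l ∈ Q, l.Prime) (a : ℕ → ℕ) :
    ∃ d : ℕ, ∀ l ∈ Q, ¬ (l : ℤ) ∣ -(d : ℤ) - a l := by
  classical
  have hcop : (Q : Set ℕ).Pairwise (Function.onFun Nat.Coprime (fun l : ℕ => l)) := by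
    intro l hl q hq hne
    exact (Nat.coprime_primes (hQ l hl) (hQ q hq)).2 hne
  have hpos : ∀ l ∈ Q, (fun l : ℕ => l) l ≠ 0 := fun l hl => (hQ l hl).ne_zero
  obtain ⟨d, hd⟩ := Nat.chineseRemainderOfFinset
    (fun l => (l - 1) * a l + 1) (fun l => l) Q hpos hcop
  refine ⟨d, fun l hl hdiv => ?_⟩
  have h1 : (l : ℤ) ∣ (((l - 1) * a l + 1 : ℕ) : ℤ) - d := (Nat.modEq_iff_dvd).1 (hd l hl)
  have h2 := (hQ l hl).one_lt
  have h3 : (l : ℤ) ∣ 1 := by
    have e : (1 : ℤ) = ((((l - 1) * a l + 1 : ℕ) : ℤ) - d) - (-(d : ℤ) - a l) - l * a l := by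
      push_cast [Nat.cast_sub h2.le]
      ring
    rw [e]
    exact dvd_sub (dvd_sub h1 hdiv) (Dvd.intro _ rfl)
  have h4 : (l : ℤ) ∣ ((1 : ℕ) : ℤ) := by exact_mod_cast h3
  have h5 : l ∣ 1 := Int.natCast_dvd_natCast.1 h4
  have h6 := Nat.le_of_dvd one_pos h5
  omega

/-- The shift: an uncovered origin `o` such that the covering of the `K` integers after `o` has at
most as many survivors as the covering of `[1, T]`. -/
theorem exists_shift (Q : Finset ℕ) (hQ : ∀ l ∈ Q, l.Prime) (a : ℕ → ℕ) (T K : ℕ)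
    (hK : 2 * K ≤ T) :
    ∃ o : ℤ, (∀ l ∈ Q, ¬ (l : ℤ) ∣ o - a l) ∧
      ((Icc 1 K).filter (fun k : ℕ => ∀ l ∈ Q, ¬ (l : ℤ) ∣ (k : ℤ) + o - a l)).card ≤
        ((Icc 1 T).filter (fun k => ∀ l ∈ Q, ¬ k ≡ a l [MOD l])).card := by
  classical
  by_cases h : ∃ o : ℕ, 1 ≤ o ∧ o ≤ K ∧ ∀ l ∈ Q, ¬ (l : ℤ) ∣ (o : ℤ) - a l
  · obtain ⟨o, ho1, ho2, ho3⟩ := h
    refine ⟨o, ho3, ?_⟩
    refine Finset.card_le_card_of_injOn (fun k => k + o) ?_ ?_
    · intro k hk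
      rw [Finset.mem_coe, mem_filter, mem_Icc] at hk
      rw [Finset.mem_coe, mem_filter, mem_Icc]
      obtain ⟨⟨hk1, hk2⟩, hk3⟩ := hk
      refine ⟨⟨Nat.le_add_right_of_le hk1, (Nat.add_le_add hk2 ho2).trans (by omega)⟩,
        fun l hl hcon => hk3 l hl ?_⟩
      have h1 := (Nat.modEq_iff_dvd).1 hcon
      have h2 : (l : ℤ) ∣ -((a l : ℤ) - ((k + o : ℕ) : ℤ)) := (dvd_neg).2 h1
      have e : (k : ℤ) + o - a l = -((a l : ℤ) - ((k + o : ℕ) : ℤ)) := by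
        push_cast
        ring
      rw [e]
      exact h2
    · intro k _ k' _ hkk
      simpa using hkk
  · push Not at h
    have hex := exists_uncovered Q hQ a
    refine ⟨-(Nat.find hex : ℤ), Nat.find_spec hex, ?_⟩
    have hemp : (Icc 1 K).filter (fun k : ℕ => ∀ l ∈ Q,
        ¬ (l : ℤ) ∣ (k : ℤ) + -(Nat.find hex : ℤ) - a l) = ∅ := by
      rw [Finset.filter_eq_empty_iff]
      intro k hk hcon
      rw [mem_Icc] at hk
      rcases lt_or_ge (Nat.find hex) k with h1 | h1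
      · obtain ⟨l, hl, hdiv⟩ := h (k - Nat.find hex) (by omega) (by omega)
        apply hcon l hl
        have e : (k : ℤ) + -(Nat.find hex : ℤ) - a l = ((k - Nat.find hex : ℕ) : ℤ) - a l := by
          rw [Nat.cast_sub h1.le]
          ring
        rw [e]
        exact hdiv
      · have h2 : Nat.find hex - k < Nat.find hex := by omega
        apply Nat.find_min hex h2
        intro l hl hdiv
        apply hcon l hl
        have e : (k : ℤ) + -(Nat.find hex : ℤ) - a l = -((Nat.find hex - k : ℕ) : ℤ) - a l := by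
          rw [Nat.cast_sub h1]
          ring
        rw [e]
        exact hdiv
    rw [hemp]
    simp

/-- The class of one prime. -/
lemma exists_class_one (c : ℤ) {l : ℕ} (hl : l.Prime) {α : ℤ} (hα : ¬ (l : ℤ) ∣ α) :
    ∃ b : ℕ, ∀ k : ℤ, (l : ℤ) ∣ k - α → (l : ℤ) ∣ c + k * b := by
  haveI : Fact l.Prime := ⟨hl⟩
  haveI : NeZero l := ⟨hl.ne_zero⟩
  have hα' : (α : ZMod l) ≠ 0 := by
    rwa [Ne, ZMod.intCast_zmod_eq_zero_iff_dvd]
  refine ⟨(-(c : ZMod l) * ((α : ZMod l))⁻¹).val, fun k hk => ?_⟩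
  rw [← ZMod.intCast_zmod_eq_zero_iff_dvd] at hk ⊢
  push_cast at hk ⊢
  rw [ZMod.natCast_zmod_val]
  have h1 : (k : ZMod l) = α := by linear_combination hk
  rw [h1]
  have h2 : (α : ZMod l) * (-(c : ZMod l) * (α : ZMod l)⁻¹) =
      -(c : ZMod l) * ((α : ZMod l) * (α : ZMod l)⁻¹) := by ring
  rw [h2, mul_inv_cancel₀ hα']
  ring

/-- The class of the modulus: for all primes of `Q`. -/
theorem exists_class_c (c : ℤ) (y : ℕ) (Q : Finset ℕ) (hQ : ∀ l ∈ Q, l.Prime) (α : ℕ → ℤ)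
    (hα : ∀ l ∈ Q, ¬ (l : ℤ) ∣ α l) :
    ∃ b : ℕ, y ≤ b ∧ b < y + ∏ l ∈ Q, l ∧
      ∀ l ∈ Q, ∀ k : ℤ, (l : ℤ) ∣ k - α l → (l : ℤ) ∣ c + k * b := by
  classical
  have hcop : (Q : Set ℕ).Pairwise (Function.onFun Nat.Coprime (fun l : ℕ => l)) := by
    intro l hl q hq hne
    exact (Nat.coprime_primes (hQ l hl) (hQ q hq)).2 hne
  have hpos : ∀ l ∈ Q, (fun l : ℕ => l) l ≠ 0 := fun l hl => (hQ l hl).ne_zero
  have hex : ∀ l : ℕ, ∃ b : ℕ, l ∈ Q → ∀ k : ℤ, (l : ℤ) ∣ k - α l → (l : ℤ) ∣ c + k * b := by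
    intro l
    by_cases hl : l ∈ Q
    · obtain ⟨b, hb⟩ := exists_class_one c (hQ l hl) (hα l hl)
      exact ⟨b, fun _ => hb⟩
    · exact ⟨0, fun h => absurd h hl⟩
  choose β hβ using hex
  obtain ⟨b₀, hb₀⟩ := Nat.chineseRemainderOfFinset β (fun l => l) Q hpos hcop
  set W := ∏ l ∈ Q, l with hW
  have hWpos : 0 < W := Finset.prod_pos fun l hl => (hQ l hl).pos
  obtain ⟨b, hb1, hb2, hb3⟩ : ∃ b : ℕ, y ≤ b ∧ b < y + W ∧ b ≡ b₀ [MOD W] := by
    refine ⟨y + (b₀ + (W - 1) * y) % W, by omega, ?_, ?_⟩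
    · have := Nat.mod_lt (b₀ + (W - 1) * y) hWpos
      omega
    · have h1 : y + (b₀ + (W - 1) * y) % W ≡ y + (b₀ + (W - 1) * y) [MOD W] :=
        Nat.ModEq.add_left _ (Nat.mod_modEq _ _)
      have h2 : y + (b₀ + (W - 1) * y) = b₀ + W * y := by
        obtain ⟨V, hV⟩ := Nat.exists_eq_succ_of_ne_zero hWpos.ne'
        rw [hV, Nat.succ_sub_one, Nat.succ_eq_add_one]
        ring
      rw [h2] at h1
      refine h1.trans ?_
      have h3 : b₀ + W * y ≡ b₀ + 0 [MOD W] :=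
        Nat.ModEq.add_left _ ((Nat.modEq_zero_iff_dvd).2 (Dvd.intro _ rfl))
      exact h3
  refine ⟨b, hb1, hb2, ?_⟩
  intro l hl k hk
  have hlW : l ∣ W := Finset.dvd_prod_of_mem _ hl
  have h1 : b ≡ β l [MOD l] := (hb3.of_dvd hlW).trans (hb₀ l hl)
  have h2 := hβ l hl k hk
  have h3 : (l : ℤ) ∣ (β l : ℤ) - b := (Nat.modEq_iff_dvd).1 h1
  have e : c + k * (b : ℤ) = (c + k * β l) - k * ((β l : ℤ) - b) := by ring
  rw [e]
  exact dvd_sub h2 (Dvd.dvd.mul_left h3 k)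

/-- Pigeonhole: one of `K + 1` separated intervals contains no `m` with `c' < k m ≤ c' + Z` for
any `k` between `1` and `K`. -/
theorem exists_interval (K H D Z y c' : ℕ) (hZ : Z + D < H) :
    ∃ i ≤ K, ∀ k : ℕ, 1 ≤ k → k ≤ K → ∀ m : ℕ, y + i * H ≤ m → m ≤ y + i * H + D →
      ¬ (c' < k * m ∧ k * m ≤ c' + Z) := by
  classical
  by_contra hcon
  push Not at hcon
  have hcon' : ∀ i : ℕ, ∃ k : ℕ, i ≤ K → 1 ≤ k ∧ k ≤ K ∧ ∃ m : ℕ, y + i * H ≤ m ∧
      m ≤ y + i * H + D ∧ c' < k * m ∧ k * m ≤ c' + Z := by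
    intro i
    by_cases hi : i ≤ K
    · obtain ⟨k, h1, h2, m, h3, h4, h5, h6⟩ := hcon i hi
      exact ⟨k, fun _ => ⟨h1, h2, m, h3, h4, h5, h6⟩⟩
    · exact ⟨0, fun h => absurd h hi⟩
  choose κ hκ using hcon'
  have hmaps : ∀ i ∈ range (K + 1), κ i ∈ Icc 1 K := by
    intro i hi
    rw [mem_range] at hi
    obtain ⟨h1, h2, -⟩ := hκ i (by omega)
    rw [mem_Icc]
    exact ⟨h1, h2⟩
  obtain ⟨i, hi, j, hj, hij, he⟩ := Finset.exists_ne_map_eq_of_card_lt_of_maps_to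
    (s := range (K + 1)) (t := Icc 1 K) (by simp) hmaps
  wlog hlt : i < j generalizing i j
  · exact this j hj i hi hij.symm he.symm (by omega)
  rw [mem_range] at hi hj
  obtain ⟨h1, h2, m, h3, h4, h5, h6⟩ := hκ i (by omega)
  obtain ⟨g1, g2, m', g3, g4, g5, g6⟩ := hκ j (by omega)
  rw [← he] at g5 g6
  -- the distance of `m'` and `m`
  have h7 : y + i * H + H ≤ m' := by
    have : (i + 1) * H ≤ j * H := Nat.mul_le_mul_right H (by omega)
    have e : (i + 1) * H = i * H + H := by ring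
    omega
  have h8 : m + Z < m' := by omega
  have h9 : κ i * (m + Z + 1) ≤ κ i * m' := Nat.mul_le_mul_left _ h8
  have h10 : κ i * (m + Z + 1) = κ i * m + κ i * (Z + 1) := by ring
  have h11 : Z + 1 ≤ κ i * (Z + 1) := Nat.le_mul_of_pos_left _ (by omega)
  omega

end Pool.Agent.LPc5
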