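import Mathlib
import Pool.Agent.Lib_helper72.LP.RankinC
import Pool.Agent.LPc5.Eng
import Pool.Agent.LPc5.Shift
import Pool.Agent.LPc5.Mon

set_option autoImplicit false

/-!
Theorem C: for a fixed residue `c`, moduli `m` in short intervals such that `c + k m` is composite
for all `k` up to the size of the Rankin type function.
-/

namespace Pool.Agent.LPc5

open Finset Filter BlockSieve Pool.Agent.Lib_helper72.AP Pool.Agent.Lib_helper72.AS
open Pool.Agent.Lib_helper9.LG Pool.Agent.Lib_helper72.LP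

noncomputable section

/-- Theorem C. -/
def StmtC : Prop := ∃ c₀ : ℝ, 0 < c₀ ∧ ∀ κ : ℝ, 0 < κ → κ ≤ 1 → ∀ ε : ℝ, 0 < ε → ε ≤ 1 →
  ∃ M₀ : ℕ, ∀ M : ℕ, M₀ ≤ M →
  ∀ c : ℤ, c ≠ 0 → c.natAbs ≤ M →
  ((c.natAbs.primeFactors.card : ℝ) + 1 ≤ Real.exp ((1 - κ) * XB M)) →
  ∀ y : ℕ, (M : ℝ) ^ ε ≤ y → ∃ m : ℕ, y ≤ m ∧ (m : ℝ) ≤ y + (M : ℝ) ^ ε ∧ m.Coprime c.natAbs ∧
    ∀ k : ℕ, 0 < k →
      (k : ℝ) ≤ c₀ * ε * ((c.natAbs.totient : ℝ) / c.natAbs) * WB M →
      ∀ q : ℕ, q.Prime → (q : ℤ) ≠ c + k * m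

/-- Elementary conditions on large `M`. -/
lemma ev_thC (ε : ℝ) (hε : 0 < ε) (X₀ : ℝ) : ∀ᶠ M : ℕ in atTop,
    16 ≤ (M : ℝ) ∧ X₀ ≤ (M : ℝ) ^ (ε / 2) ∧ 280 * (Real.log M) ^ 3 ≤ (M : ℝ) ^ (ε / 2) ∧
      128 * (ε⁻¹) ^ 4 + 8 ≤ Real.log M ∧ 4 ≤ ε * Real.log M ∧
      Real.exp 1 ≤ Real.log (Real.log (Real.log M)) := by
  have h1 : Tendsto (fun M : ℕ => (M : ℝ) ^ (ε / 2)) atTop atTop :=
    (tendsto_rpow_atTop (by positivity)).comp tendsto_natCast_atTop_atTop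
  have h2 : Tendsto (fun M : ℕ => Real.log (M : ℝ)) atTop atTop :=
    Real.tendsto_log_atTop.comp tendsto_natCast_atTop_atTop
  have h3 : Tendsto (fun M : ℕ => ε * Real.log (M : ℝ)) atTop atTop :=
    h2.const_mul_atTop hε
  have h4 : Tendsto (fun M : ℕ => Real.log (Real.log (Real.log (M : ℝ)))) atTop atTop :=
    Real.tendsto_log_atTop.comp (Real.tendsto_log_atTop.comp h2)
  have h5 : ∀ᶠ u : ℝ in atTop, 280 * u ^ 3 ≤ Real.exp (ε / 2 * u) := by
    have h := (isLittleO_pow_exp_pos_mul_atTop 3 (show (0 : ℝ) < ε / 2 by positivity)).bound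
      (show (0 : ℝ) < 1 / 280 by norm_num)
    filter_upwards [h, eventually_ge_atTop 0] with u hu hu0
    rw [Real.norm_of_nonneg (by positivity), Real.norm_of_nonneg (Real.exp_pos _).le] at hu
    linarith
  have h6 := h2.eventually h5
  filter_upwards [eventually_ge_atTop 16, h1.eventually_ge_atTop X₀, h6,
    h2.eventually_ge_atTop (128 * (ε⁻¹) ^ 4 + 8),
    h3.eventually_ge_atTop 4, h4.eventually_ge_atTop (Real.exp 1)] with M e1 e2 e3 e4 e5 e6
  refine ⟨by exact_mod_cast e1, e2, ?_, e4, e5, e6⟩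
  refine e3.trans (le_of_eq ?_)
  have hM : (0 : ℝ) < M := by
    have : (16 : ℝ) ≤ M := by exact_mod_cast e1
    linarith
  rw [Real.rpow_def_of_pos hM]
  congr 1
  ring

/-- **Theorem C** from the engine. -/
theorem thC (hE : StmtEc) : StmtC := by
  classical
  obtain ⟨c₁, hc₁, hE⟩ := hE
  obtain ⟨c₂, hc₂⟩ : ∃ c₂, c₂ = min c₁ 1 := ⟨_, rfl⟩
  have hc2pos : 0 < c₂ := by rw [hc₂]; exact lt_min hc₁ one_pos
  have hc21 : c₂ ≤ 1 := by rw [hc₂]; exact min_le_right _ _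
  have hc2c1 : c₂ ≤ c₁ := by rw [hc₂]; exact min_le_left _ _
  refine ⟨c₂ / 96000, by positivity, fun κ hκ hκ1 ε hε hε1 => ?_⟩
  obtain ⟨A, hA⟩ : ∃ A : ℕ, A = ⌈32 / ε⌉₊ := ⟨_, rfl⟩
  have hA1 : 32 / ε ≤ A := by rw [hA]; exact Nat.le_ceil _
  obtain ⟨B, hB⟩ : ∃ B : ℕ, B = ⌈2 / ε⌉₊ := ⟨_, rfl⟩
  have hB1 : 2 / ε ≤ B := by rw [hB]; exact Nat.le_ceil _
  obtain ⟨X₀, hX₀⟩ := hE B
  obtain ⟨δ, hδ⟩ : ∃ δ, δ = c₂ * ε / 6000 := ⟨_, rfl⟩
  have hδ0 : 0 < δ := by rw [hδ]; positivity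
  have hδ1 : δ ≤ 1 := by
    rw [hδ]
    have : c₂ * ε ≤ 1 * 1 := by gcongr
    linarith
  obtain ⟨M₀, hM₀⟩ := survivorsC A hκ hκ1 hδ0 hδ1
  obtain ⟨M₁, hM₁⟩ := eventually_atTop.1 (ev_thC ε hε X₀)
  refine ⟨max M₀ M₁, fun M hM c hc0 hcM hω y hy => ?_⟩
  obtain ⟨g1, g2, g3, g4, g5, g6⟩ := hM₁ M ((le_max_right _ _).trans hM)
  have hcpos : 0 < c.natAbs := Int.natAbs_pos.2 hc0
  obtain ⟨M', hMM, hMM2, hcM', hpf, htot⟩ := exists_near hcpos hcM
  have hMpos : 0 < M := by omega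
  obtain ⟨hWB, hOB, hWB0⟩ := sizes_mono hMM hMpos g6
  have hωM' : (M'.primeFactors.card : ℝ) ≤ OC κ M' := by
    refine le_trans (show (M'.primeFactors.card : ℝ) ≤ (c.natAbs.primeFactors.card : ℝ) + 1 by
      exact_mod_cast hpf) (hω.trans ?_)
    rw [OC]
    apply Real.exp_le_exp.2
    exact mul_le_mul_of_nonneg_left hOB (by linarith)
  obtain ⟨f1, f2, f3, f4, a, f5⟩ := hM₀ M' (((le_max_left _ _).trans hM).trans hMM) hωM'
  obtain ⟨X', hX'⟩ : ∃ X' : ℝ, X' = δ * ((M'.totient : ℝ) / M') * WB M' := ⟨_, rfl⟩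
  obtain ⟨T, hT⟩ : ∃ T : ℕ, T = ⌊X'⌋₊ := ⟨_, rfl⟩
  rw [← hX', ← hT] at f3 f4 f5
  obtain ⟨L, hL⟩ : ∃ L, L = Real.log (M : ℝ) := ⟨_, rfl⟩
  obtain ⟨L', hL'⟩ : ∃ L', L' = Real.log (M' : ℝ) := ⟨_, rfl⟩
  rw [← hL'] at f1 f2 f3 f4 f5
  rw [← hL] at g3 g4 g5
  have hM0 : (0 : ℝ) < M := by linarith
  have hM'0 : (0 : ℝ) < M' := by
    have : (M : ℝ) ≤ M' := by exact_mod_cast hMM
    linarith
  have hL4 : 8 ≤ L := by
    have : 0 ≤ 128 * (ε⁻¹) ^ 4 := by positivity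
    linarith
  have hL0 : 0 < L := by linarith
  have hLL1 : L ≤ L' := by
    rw [hL, hL']
    exact Real.log_le_log hM0 (by exact_mod_cast hMM)
  have hLL2 : L' ≤ 2 * L := by
    have h1 : L' ≤ Real.log (2 * M) := by
      rw [hL']
      apply Real.log_le_log hM'0
      exact_mod_cast hMM2.le
    rw [Real.log_mul (by norm_num) hM0.ne', ← hL] at h1
    have := Real.log_two_lt_d9
    linarith
  have hL'0 : 0 < L' := by linarith
  have hεinv : 1 ≤ ε⁻¹ := (one_le_inv₀ hε).2 hε1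
  -- the parameter of the engine
  obtain ⟨X, hX⟩ : ∃ X : ℝ, X = (M : ℝ) ^ (ε / 2) := ⟨_, rfl⟩
  rw [← hX] at g2 g3
  have hX0 : 0 < X := by rw [hX]; positivity
  have hlogX : Real.log X = ε * L / 2 := by
    rw [hX, Real.log_rpow hM0, ← hL]
    ring
  have hXX : X * X = (M : ℝ) ^ ε := by
    rw [hX, ← Real.rpow_add hM0]
    congr 1
    ring
  have hX4 : 4 ≤ X := by
    have : (8 : ℝ) ^ 3 ≤ L ^ 3 := by gcongr
    linarith
  have hlX2 : 2 ≤ Real.log X := by rw [hlogX]; linarith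
  have hmX : (c.natAbs : ℝ) ≤ X ^ B := by
    refine le_trans (show (c.natAbs : ℝ) ≤ M by exact_mod_cast hcM) ?_
    rw [← Real.log_le_log_iff hM0 (by positivity), Real.log_pow, ← hL, hlogX]
    calc L = (2 / ε) * (ε * L / 2) := by field_simp
      _ ≤ B * (ε * L / 2) := by gcongr
  -- the primes of the covering
  set Q : Finset ℕ := (pr (yM A M')).filter (fun l => ¬ l ∣ M') with hQ
  have hQp : ∀ l ∈ Q, l.Prime := fun l hl => (mem_pr.1 (mem_filter.1 hl).1).1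
  -- the shift
  obtain ⟨K, hK⟩ : ∃ K : ℕ, K = T / 2 := ⟨_, rfl⟩
  have hKT : 2 * K ≤ T := by omega
  obtain ⟨o, ho1, ho2⟩ := exists_shift Q hQp a T K hKT
  obtain ⟨W, hW⟩ : ∃ W : ℕ, W = ∏ l ∈ Q, l := ⟨_, rfl⟩
  have hWpos : 1 ≤ W := by rw [hW]; exact Finset.prod_pos fun l hl => (hQp l hl).pos
  have hWr : (0 : ℝ) < W := by exact_mod_cast hWpos
  have hlogW : Real.log W ≤ Real.log 4 * yM A M' := by
    refine le_trans ?_ (prod_pr_log_le (yM A M'))
    apply Real.log_le_log hWr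
    have : W ≤ ∏ l ∈ pr (yM A M'), l := by
      rw [hW]
      exact Finset.prod_le_prod_of_subset_of_one_le' (Finset.filter_subset _ _)
        (fun l hl _ => (mem_pr.1 hl).1.one_lt.le)
    exact_mod_cast this
  have hyM : (yM A M' : ℝ) ≤ ε * L / 48 := by
    have hA5 : 32 / ε ≤ (A : ℝ) + 5 := by linarith
    have hA50 : 0 < (A : ℝ) + 5 := lt_of_lt_of_le (by positivity) hA5
    refine f2.trans ?_
    rw [div_le_iff₀ (by positivity)]
    have h3 : 32 ≤ ε * ((A : ℝ) + 5) := by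
      rw [div_le_iff₀ hε] at hA5
      linarith
    calc L' ≤ 2 * L := hLL2
      _ = 32 * (L / 16) := by ring
      _ ≤ (ε * ((A : ℝ) + 5)) * (L / 16) := by gcongr
      _ = ε * L / 48 * (3 * ((A : ℝ) + 5)) := by ring
  have hW8 : 8 * Real.log W ≤ ε * L / 2 := by
    have h1 := log_four_le
    have hlog4 : 0 ≤ Real.log 4 := Real.log_nonneg (by norm_num)
    calc 8 * Real.log W ≤ 8 * (Real.log 4 * yM A M') := by gcongr
      _ ≤ 8 * ((1387 / 1000) * (ε * L / 48)) := by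
          have h5 : (0 : ℝ) ≤ yM A M' := Nat.cast_nonneg _
          gcongr
      _ ≤ ε * L / 2 := by
          have : 0 ≤ ε * L := by positivity
          linarith
  have hWX : (W : ℝ) ^ 8 ≤ X := by
    rw [← Real.log_le_log_iff (by positivity) hX0, Real.log_pow, hlogX]
    push_cast
    linarith
  have hWX1 : (W : ℝ) ≤ X := by
    refine le_trans ?_ hWX
    have h1 : (1 : ℝ) ≤ W := by exact_mod_cast hWpos
    exact le_self_pow₀ h1 (by norm_num)
  have hWm : W.Coprime c.natAbs := by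
    rw [hW]
    refine Nat.Coprime.prod_left fun l hl => ?_
    exact (Nat.Prime.coprime_iff_not_dvd (hQp l hl)).2
      fun h => (mem_filter.1 hl).2 (h.trans hcM')
  have hL4X : 8 * L ^ 3 ≤ (Real.log X) ^ 4 := by
    have h3 : 128 ≤ ε ^ 4 * L := by
      have h4 : 128 * (ε⁻¹) ^ 4 ≤ L := by linarith
      have h5 : ε ^ 4 * (128 * (ε⁻¹) ^ 4) = 128 := by
        field_simp
      calc (128 : ℝ) = ε ^ 4 * (128 * (ε⁻¹) ^ 4) := h5.symm
        _ ≤ ε ^ 4 * L := by gcongr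
    rw [hlogX]
    calc 8 * L ^ 3 = (128 * L ^ 3) / 16 := by ring
      _ ≤ ((ε ^ 4 * L) * L ^ 3) / 16 := by gcongr
      _ = (ε * L / 2) ^ 4 := by ring
  have hTX : (T : ℝ) ≤ 8 * L ^ 3 := by
    refine f4.trans ?_
    have h1 : Real.log L' ≤ L' := (Real.log_le_sub_one_of_pos hL'0).trans (by linarith)
    have h0 : 0 ≤ Real.log L' := Real.log_nonneg (by linarith)
    calc L' * (Real.log L') ^ 2 ≤ (2 * L) * (2 * L) ^ 2 := by
          have : Real.log L' ≤ 2 * L := h1.trans hLL2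
          gcongr
      _ = 8 * L ^ 3 := by ring
  have hyX : (yM A M' : ℝ) ≤ (Real.log X) ^ 4 := by
    refine le_trans ?_ hL4X
    refine hyM.trans ?_
    have h1 : ε * L ≤ 1 * L := by gcongr
    have h2 : L ≤ L ^ 3 := le_self_pow₀ (by linarith) (by norm_num)
    linarith
  have hWp : ∀ p : ℕ, p.Prime → p ∣ W → (p : ℝ) ≤ (Real.log X) ^ 4 := by
    intro p hp hpW
    rw [hW] at hpW
    obtain ⟨l, hl, hpl⟩ := (hp.prime.dvd_finsetProd_iff _).1 hpW
    rw [(Nat.prime_dvd_prime_iff_eq hp (hQp l hl)).1 hpl]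
    have h1 : (l : ℝ) ≤ yM A M' := by exact_mod_cast (mem_pr.1 (mem_filter.1 hl).1).2
    exact h1.trans hyX
  -- the interval
  obtain ⟨D, hD⟩ : ∃ D : ℕ, D = ⌊2 * X⌋₊ := ⟨_, rfl⟩
  obtain ⟨Z, hZ⟩ : ∃ Z : ℕ, Z = ⌊X⌋₊ := ⟨_, rfl⟩
  have hDX : (D : ℝ) ≤ 2 * X := by rw [hD]; exact Nat.floor_le (by positivity)
  have hZX : (Z : ℝ) ≤ X := by rw [hZ]; exact Nat.floor_le hX0.le
  obtain ⟨H, hH⟩ : ∃ H : ℕ, H = Z + D + 1 := ⟨_, rfl⟩
  have hHX : (H : ℝ) ≤ 4 * X := by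
    rw [hH]
    push_cast
    linarith
  obtain ⟨i, hiK, hi⟩ := exists_interval K H D Z y c.natAbs (by omega)
  have hKr : (K : ℝ) ≤ 8 * L ^ 3 := by
    refine le_trans ?_ hTX
    exact_mod_cast (by omega : K ≤ T)
  have hlen : ((i * H : ℕ) : ℝ) + 2 * X ≤ (M : ℝ) ^ ε := by
    rw [← hXX]
    push_cast
    have h1 : (i : ℝ) ≤ 8 * L ^ 3 := le_trans (by exact_mod_cast hiK) hKr
    have h2 : (1 : ℝ) ≤ L ^ 3 := one_le_pow₀ (by linarith)
    calc (i : ℝ) * H + 2 * X ≤ (8 * L ^ 3) * (4 * X) + 2 * X := by gcongr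
      _ = (32 * L ^ 3 + 2) * X := by ring
      _ ≤ (280 * L ^ 3) * X := by
          apply mul_le_mul_of_nonneg_right _ hX0.le
          linarith
      _ ≤ X * X := by gcongr
  -- the class
  obtain ⟨b, hb1, hb2, hb3⟩ := exists_class_c c (y + i * H) Q hQp (fun l => (a l : ℤ) - o)
    (fun l hl hdiv => ho1 l hl (by
      have h1 := (dvd_neg).2 hdiv
      have e : o - (a l : ℤ) = -((a l : ℤ) - o) := by ring
      rw [e]
      exact h1))
  rw [← hW] at hb2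
  -- the sites
  set S : Finset ℕ := (Icc 1 K).filter
    (fun k : ℕ => ∀ l ∈ Q, ¬ (l : ℤ) ∣ (k : ℤ) + o - a l) with hS
  have hSX : ∀ k ∈ S, 0 < k ∧ (k : ℝ) ≤ (Real.log X) ^ 4 := by
    intro k hk
    rw [hS, mem_filter, mem_Icc] at hk
    refine ⟨hk.1.1, ?_⟩
    have h1 : (k : ℝ) ≤ K := by exact_mod_cast hk.1.2
    exact h1.trans (hKr.trans hL4X)
  have hScard : (S.card : ℝ) ≤ c₁ * Real.log X := by
    have h1 : ((Icc 1 T).filter (fun k => ∀ l ∈ Q, ¬ k ≡ a l [MOD l])).card ≤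
        ((Icc 1 T).filter
          (fun k => ∀ l ∈ pr (yM A M'), ¬ l ∣ M' → ¬ k ≡ a l [MOD l])).card := by
      apply Finset.card_le_card
      intro k hk
      rw [mem_filter] at hk ⊢
      exact ⟨hk.1, fun l hl hlM => hk.2 l (mem_filter.2 ⟨hl, hlM⟩)⟩
    calc (S.card : ℝ) ≤ _ := Nat.cast_le.2 (ho2.trans h1)
      _ ≤ 1500 * δ * L' := f5
      _ ≤ 1500 * δ * (2 * L) := by gcongr
      _ = c₂ * (ε * L / 2) := by rw [hδ]; ring
      _ ≤ c₁ * Real.log X := by rw [hlogX]; gcongr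
  obtain ⟨x, hx1, hx2, hx3⟩ := hX₀ X g2 c c.natAbs rfl W b hcpos hmX hWpos hWX hWm hWp S hSX hScard
  obtain ⟨m, hm⟩ : ∃ m : ℕ, m = b + W * x := ⟨_, rfl⟩
  rw [← hm] at hx2 hx3
  have hmlow : y + i * H ≤ m := by
    rw [hm]
    omega
  have hmup' : (m : ℝ) ≤ ((y + i * H : ℕ) : ℝ) + 2 * X := by
    rw [hm]
    push_cast
    push_cast at hx1
    have h1 : (b : ℝ) ≤ ((y + i * H : ℕ) : ℝ) + W := by exact_mod_cast hb2.le
    push_cast at h1
    linarith
  have hmup : m ≤ y + i * H + D := by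
    have h1 : ((m - (y + i * H) : ℕ) : ℝ) ≤ 2 * X := by
      rw [Nat.cast_sub hmlow]
      linarith
    have h2 : m - (y + i * H) ≤ D := by
      rw [hD]
      exact Nat.le_floor h1
    omega
  refine ⟨m, by omega, ?_, hx2, ?_⟩
  · have e : ((y + i * H : ℕ) : ℝ) = (y : ℝ) + ((i * H : ℕ) : ℝ) := by push_cast; ring
    rw [e] at hmup'
    linarith
  intro k hk0 hk q hq hqe
  -- a prime of the form `c + k m` is not divisible by a prime up to `X`
  have hdiv : ∀ l : ℕ, l.Prime → (l : ℝ) ≤ X → (l : ℤ) ∣ c + k * m → k ≤ K → False := by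
    intro l hl hlX hld hkK
    rw [← hqe] at hld
    have h1 : l ∣ q := Int.natCast_dvd_natCast.1 hld
    have h2 := (Nat.prime_dvd_prime_iff_eq hl hq).1 h1
    have h3 : l ≤ Z := by
      rw [hZ]
      exact Nat.le_floor hlX
    rcases lt_or_gt_of_ne hc0 with hneg | hpos
    · apply hi k hk0 hkK m hmlow hmup
      have h4 : (c.natAbs : ℤ) = -c := by
        rw [Int.natCast_natAbs, abs_of_neg hneg]
      have h5 : 0 < q := hq.pos
      constructor
      · have : (c.natAbs : ℤ) < ((k * m : ℕ) : ℤ) := by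
          rw [h4]
          push_cast
          omega
        exact_mod_cast this
      · have : ((k * m : ℕ) : ℤ) ≤ ((c.natAbs + Z : ℕ) : ℤ) := by
          push_cast
          rw [abs_of_neg hneg]
          omega
        exact_mod_cast this
    · have h4 : (M : ℝ) ^ ε ≤ m := by
        have : (y : ℝ) ≤ m := by exact_mod_cast (by omega : y ≤ m)
        linarith
      have h5 : (q : ℝ) ≤ X := by rw [← h2]; exact hlX
      have h6 : (m : ℤ) < q := by
        rw [hqe]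
        have : (m : ℤ) ≤ k * m := by
          have h7 : (1 : ℤ) ≤ k := by exact_mod_cast hk0
          have h8 : (0 : ℤ) ≤ m := Int.natCast_nonneg m
          exact le_mul_of_one_le_left h8 h7
        omega
      have h7 : (m : ℝ) < q := by exact_mod_cast h6
      rw [← hXX] at h4
      have h8 := mul_le_mul_of_nonneg_right hX4 hX0.le
      linarith
  have hkK : k ≤ K := by
    have hT1 : 8 ≤ T := by
      have : (8 : ℝ) ≤ T := by linarith
      exact_mod_cast this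
    have hX'T : X' < T + 1 := by
      rw [hT]
      exact Nat.lt_floor_add_one _
    have h1 : (k : ℝ) ≤ X' / 8 := by
      refine hk.trans ?_
      have h2 : δ * ((c.natAbs.totient : ℝ) / c.natAbs) * WB M ≤ 2 * X' := by
        rw [hX']
        have h3 : 0 ≤ (M'.totient : ℝ) / M' := by positivity
        calc δ * ((c.natAbs.totient : ℝ) / c.natAbs) * WB M ≤
              δ * (2 * ((M'.totient : ℝ) / M')) * WB M' := by
              gcongr
          _ = 2 * (δ * ((M'.totient : ℝ) / M') * WB M') := by ring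
      have h4 : c₂ / 96000 * ε * ((c.natAbs.totient : ℝ) / c.natAbs) * WB M =
          (δ * ((c.natAbs.totient : ℝ) / c.natAbs) * WB M) / 16 := by
        rw [hδ]
        ring
      rw [h4]
      linarith
    have h5 : (k : ℝ) ≤ ((T : ℝ) + 1) / 8 := by linarith
    have h6 : 8 * k ≤ T + 1 := by
      have : (8 : ℝ) * k ≤ T + 1 := by linarith
      exact_mod_cast this
    omega
  by_cases hkS : k ∈ S
  · obtain ⟨l, hl1, hl2, hl3, hl4, hl5⟩ := hx3 k hkS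
    refine hdiv l hl1 (hl4.trans ?_) hl5 hkK
    rw [← Real.exp_log hX0, Real.log_exp]
    apply Real.exp_le_exp.2
    rw [Real.sqrt_le_left (by linarith)]
    exact le_self_pow₀ (by linarith) (by norm_num)
  · rw [hS, mem_filter, not_and] at hkS
    have h1 := hkS (mem_Icc.2 ⟨hk0, hkK⟩)
    push Not at h1
    obtain ⟨l, hl1, hl3⟩ := h1
    have e : (k : ℤ) + o - a l = (k : ℤ) - ((a l : ℤ) - o) := by ring
    rw [e] at hl3
    have hld : (l : ℤ) ∣ c + k * b := hb3 l hl1 k hl3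
    have hlW : l ∣ W := by rw [hW]; exact Finset.dvd_prod_of_mem _ hl1
    refine hdiv l (hQp l hl1) ?_ ?_ hkK
    · have h2 : (l : ℝ) ≤ W := by exact_mod_cast Nat.le_of_dvd hWpos hlW
      exact h2.trans hWX1
    · have h2 : c + (k : ℤ) * (m : ℤ) = (c + k * b) + (W : ℤ) * (k * x) := by
        rw [hm]
        push_cast
        ring
      rw [h2]
      exact dvd_add hld (Dvd.dvd.mul_right (Int.natCast_dvd_natCast.2 hlW) _)

end

end Pool.Agent.LPc5
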