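import Mathlib
import Pool.Agent.Lib_helper9.LG.Avg
import Pool.Agent.Lib_helper9.LG.SigmaH2
import Pool.Agent.Lib_helper9.LG.Om
import Pool.Agent.LPc5.ThC

set_option autoImplicit false

/-!
Theorem C: assembly.
-/

namespace Pool.Agent.LPc5

open Finset Filter Pool.Agent.Lib_helper9.LG Pool.Agent.Lib_helper72.LP

noncomputable section

theorem stmtEc : StmtEc := engc avg sigmaH2 om

theorem stmtC : StmtC := thC stmtEc

lemma tendsto_XB : Tendsto XB atTop atTop := by
  have g0 : Tendsto (fun m : ℕ => Real.log (m : ℝ)) atTop atTop :=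
    Real.tendsto_log_atTop.comp tendsto_natCast_atTop_atTop
  have g1 : Tendsto (fun m : ℕ => Real.log (Real.log (m : ℝ))) atTop atTop :=
    Real.tendsto_log_atTop.comp g0
  have g2 : Tendsto (fun m : ℕ => Real.log (Real.log (Real.log (m : ℝ)))) atTop atTop :=
    Real.tendsto_log_atTop.comp g1
  have g3 : Tendsto (fun m : ℕ => Real.log (Real.log (Real.log (Real.log (m : ℝ)))))
      atTop atTop := Real.tendsto_log_atTop.comp g2
  refine tendsto_atTop_mono' atTop ?_ g3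
  filter_upwards [g1.eventually_ge_atTop 1, g2.eventually_ge_atTop 1,
    g3.eventually_ge_atTop 0] with m e1 e2 e3
  rw [XB, le_div_iff₀ (by linarith), mul_comm]
  apply mul_le_mul_of_nonneg_right _ e3
  exact (Real.log_le_sub_one_of_pos (by linarith)).trans (by linarith)

/-- **Theorem C**, final form. -/
theorem finalCc : ∃ c₀ : ℝ, 0 < c₀ ∧ ∀ κ : ℝ, 0 < κ → ∀ ε : ℝ, 0 < ε → ε ≤ 1 → ∃ M₀ : ℕ,
    ∀ M : ℕ, M₀ ≤ M → ∀ c : ℤ, c ≠ 0 → |c| ≤ M →
      (c.natAbs.primeFactors.card : ℝ) ≤ Real.exp ((1 - κ) * (Real.log (Real.log M) *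
        Real.log (Real.log (Real.log (Real.log M))) / Real.log (Real.log (Real.log M)))) →
      ∀ y : ℕ, (M : ℝ) ^ ε ≤ y → ∃ m : ℕ, (y : ℝ) ≤ m ∧ (m : ℝ) ≤ y + (M : ℝ) ^ ε ∧
        IsCoprime c (m : ℤ) ∧ ∀ q : ℕ, q.Prime → (q : ℤ) ≡ c [ZMOD m] → c < q →
          (c : ℝ) + c₀ * ε * ((c.natAbs.totient : ℝ) / c.natAbs) * m * (Real.log M *
            Real.log (Real.log M) ^ 2 * Real.log (Real.log (Real.log (Real.log M))) /
              (Real.log (Real.log (Real.log M))) ^ 2) < q := by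
  obtain ⟨c₀, hc₀, h⟩ := stmtC
  refine ⟨c₀, hc₀, fun κ hκ ε hε hε1 => ?_⟩
  obtain ⟨κ', hκ'⟩ : ∃ κ', κ' = min κ 1 := ⟨_, rfl⟩
  have h0 : 0 < κ' := by rw [hκ']; exact lt_min hκ one_pos
  have h1 : κ' ≤ 1 := by rw [hκ']; exact min_le_right _ _
  have h2 : κ' ≤ κ := by rw [hκ']; exact min_le_left _ _
  obtain ⟨M₀, hM₀⟩ := h (κ' / 2) (by positivity) (by linarith) ε hε hε1
  obtain ⟨M₁, hM₁⟩ := eventually_atTop.1 (tendsto_XB.eventually_ge_atTop (2 / κ'))
  refine ⟨max (max M₀ M₁) 2, fun M hM c hc hcM hω y hy => ?_⟩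
  have hMM₀ : M₀ ≤ M := ((le_max_left _ _).trans (le_max_left _ _)).trans hM
  have hMM₁ : M₁ ≤ M := ((le_max_right _ _).trans (le_max_left _ _)).trans hM
  have hM2 : 2 ≤ M := (le_max_right _ _).trans hM
  have hX := hM₁ M hMM₁
  have hX0 : 0 ≤ XB M := le_trans (by positivity) hX
  have hcM' : c.natAbs ≤ M := by
    have : (c.natAbs : ℤ) ≤ M := by rw [Int.natCast_natAbs]; exact hcM
    exact_mod_cast this
  have hω' : (c.natAbs.primeFactors.card : ℝ) + 1 ≤ Real.exp ((1 - κ' / 2) * XB M) := by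
    have e1 : (c.natAbs.primeFactors.card : ℝ) ≤ Real.exp ((1 - κ') * XB M) := by
      refine hω.trans ?_
      rw [show Real.log (Real.log M) * Real.log (Real.log (Real.log (Real.log M))) /
        Real.log (Real.log (Real.log M)) = XB M from rfl]
      apply Real.exp_le_exp.2
      apply mul_le_mul_of_nonneg_right _ hX0
      linarith
    have e2 : (1 - κ' / 2) * XB M = (1 - κ') * XB M + κ' / 2 * XB M := by ring
    have e3 : 1 ≤ κ' / 2 * XB M := by
      calc (1 : ℝ) = κ' / 2 * (2 / κ') := by field_simp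
        _ ≤ κ' / 2 * XB M := by gcongr
    have e4 : 1 ≤ Real.exp ((1 - κ') * XB M) := by
      apply Real.one_le_exp
      have : 0 ≤ 1 - κ' := by linarith
      positivity
    have e5 : 2 ≤ Real.exp (κ' / 2 * XB M) := by
      have := Real.add_one_le_exp (κ' / 2 * XB M)
      linarith
    rw [e2, Real.exp_add]
    nlinarith
  obtain ⟨m, m1, m2, m3, m4⟩ := hM₀ M hMM₀ c hc hcM' hω' y hy
  refine ⟨m, by exact_mod_cast m1, m2, ?_, ?_⟩
  · rw [Int.isCoprime_iff_gcd_eq_one]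
    have := (Nat.Coprime.symm m3)
    rw [Int.gcd_eq_natAbs]
    exact this
  · intro q hq hqc hcq
    obtain ⟨t, ht⟩ := (Int.modEq_iff_dvd).1 hqc.symm
    have hm0' : (0 : ℝ) < m := by
      have e1 : (0 : ℝ) < (M : ℝ) ^ ε := by
        apply Real.rpow_pos_of_pos
        exact_mod_cast (by omega : 0 < M)
      have e2 : (y : ℝ) ≤ m := by exact_mod_cast m1
      linarith
    have hm0 : 0 < m := by exact_mod_cast hm0'
    have ht0 : 0 < t := by
      by_contra hneg
      rw [not_lt] at hneg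
      have : (m : ℤ) * t ≤ 0 := mul_nonpos_of_nonneg_of_nonpos (by positivity) hneg
      omega
    obtain ⟨k, hk⟩ : ∃ k : ℕ, (k : ℤ) = t := ⟨t.toNat, Int.toNat_of_nonneg ht0.le⟩
    have hk0 : 0 < k := by
      have : (0 : ℤ) < k := by rw [hk]; exact ht0
      exact_mod_cast this
    have hqk : (q : ℤ) = c + k * m := by
      rw [hk]
      linarith [mul_comm (m : ℤ) t]
    by_contra hlt
    rw [not_lt] at hlt
    refine m4 k hk0 ?_ q hq hqk
    have h6 : (q : ℝ) = c + k * m := by exact_mod_cast hqk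
    have h7 : (q : ℝ) ≤ c + c₀ * ε * ((c.natAbs.totient : ℝ) / c.natAbs) * m * WB M := hlt
    have h8 : (k : ℝ) * m ≤ (c₀ * ε * ((c.natAbs.totient : ℝ) / c.natAbs) * WB M) * m := by
      linarith
    exact le_of_mul_le_mul_right h8 hm0'

end

end Pool.Agent.LPc5
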